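import Pool.Agent.Q145.LE.Near
import Pool.Agent.Q145.LY.Fi

/-!
# Project LY: the truncated series (adapted from `Pool/Agent/Q145/LE/Near.lean`)
-/

set_option autoImplicit false
set_option linter.all false

namespace Pool.Agent.Q145.LY

open Finset Filter
open Pool.Agent.Q145.SZ Pool.Agent.Q145.LQ Pool.Agent.Q145.LE Pool.Agent.Q145.LX Pool.Agent.Q150.LQ

open Classical in
/-- the truncated series (general degree) -/
theorem near_truncY : ∀ e δ : ℝ, 0 < e → 0 < δ → ∃ M : ℝ, 64 ≤ M ∧ ∀ (d z w Y X K : ℕ) (H : Fin K → ℕ) (q : Fin K → Polynomial ℤ), M ≤ Real.log (Real.log X) →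
    64 * Real.log (Real.log X) ≤ z → 64 * z * Real.log (Real.log X) ≤ Real.log X → 64 * (z : ℝ) ≤ Real.log Y → Y ≤ X → 1 ≤ d → 8 * d * (K + 1) ≤ z → SysE d z Y X H q → z ≤ w → (w : ℝ) ^ 20 ≤ X →
    NearQ z H q (fun s => singPQ q s w) e δ := by
  intro e δ he hδ
  obtain ⟨C, X₀, z₀, hC, ht⟩ := tailE e he
  set M : ℝ := 64 + X₀ + z₀ + Real.exp (C / δ) with hM
  have p1 := Real.exp_pos (C / δ)
  have p2 : (0 : ℝ) ≤ X₀ := by positivity
  have p3 : (0 : ℝ) ≤ z₀ := by positivity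
  have hM64 : 64 ≤ M := by linarith
  refine ⟨M, hM64, ?_⟩
  intro d z w Y X K H q hX hz hzX hzY hYX hd hK hS hzw hw b
  obtain ⟨hL0, hLM, hzM, hzL, hzl, hXe, hYe, hLe, hl64, hlL, hYXl, hzY64⟩ := elemX hM64 (le_refl (64 : ℝ)) hX hYX hz hzX hzY
  have hXL : Real.log X ≤ X := by
    have := Real.add_one_le_exp (Real.log X)
    rw [← hXe] at this; linarith
  have hX0 : X₀ ≤ X := by
    have : (X₀ : ℝ) ≤ X := by linarith
    exact_mod_cast this
  have hz0 : z₀ ≤ z := by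
    have : (z₀ : ℝ) ≤ z := by linarith
    exact_mod_cast this
  have hzpos : (0 : ℝ) < z := by linarith
  have hW20 : (PW z : ℝ) ^ 20 ≤ X := by
    calc (PW z : ℝ) ^ 20 ≤ (Real.exp (2 * z)) ^ 20 := by gcongr; exact PW_le Pool.Agent.Q111.SZ.t_PWB z
      _ = Real.exp (40 * z) := by rw [← Real.exp_nat_mul]; ring_nf
      _ ≤ Real.exp (Real.log X) := Real.exp_le_exp.2 (by linarith)
      _ = X := hXe.symm
  have h1 := ht d z w Y X K H q hX0 hz0 hd hK hS (by linarith) hW20 hzw hw b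
  have hlz : C / δ ≤ Real.log z := by
    rw [Real.le_log_iff_exp_le hzpos]
    linarith
  have hlz0 : 0 < Real.log z := lt_of_lt_of_le (by positivity) hlz
  have h2 : C / Real.log z ≤ δ := by
    rw [div_le_iff₀ hlz0]
    rw [div_le_iff₀ hδ] at hlz
    linarith
  have h3 : (0 : ℝ) ≤ (SbQ H b).card := Nat.cast_nonneg _
  have h4 : (((SbQ H b).filter fun s => ¬ (AdmQ q s → |singPQ q s w - singPQ q s z| ≤ e * singPQ q s z)).card : ℝ) ≤
      (((SbQ H b).filter fun s => ¬ (|singPQ q s w - singPQ q s z| ≤ e * singPQ q s z)).card : ℝ) := by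
    have : ((SbQ H b).filter fun s => ¬ (AdmQ q s → |singPQ q s w - singPQ q s z| ≤ e * singPQ q s z)) ⊆
        ((SbQ H b).filter fun s => ¬ (|singPQ q s w - singPQ q s z| ≤ e * singPQ q s z)) := by
      intro s hs
      rw [mem_filter] at hs ⊢
      refine ⟨hs.1, fun h => hs.2 fun _ => h⟩
    exact_mod_cast card_le_card this
  exact h4.trans (h1.trans (mul_le_mul_of_nonneg_right h2 h3))


end Pool.Agent.Q145.LY
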