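import Pool.Agent.Q145.LY.Num

/-!
# Project LY: the size conditions of the moment estimate
-/

set_option autoImplicit false

namespace Pool.Agent.Q145.LY

open Finset Filter
open Pool.Agent.Q145.SZ Pool.Agent.Q145.LQ Pool.Agent.Q145.LE Pool.Agent.Q145.LX

lemma condU {z X : ℕ} (hl : 64 ≤ Real.log (Real.log X)) (hz : 64 * Real.log (Real.log X) ≤ z) (hzL : 64 * z * Real.log (Real.log X) ≤ Real.log X) :
    0 ≤ Real.log ((Uz z : ℝ) * X) ∧ Real.log ((Uz z : ℝ) * X) ≤ Real.log X ^ 2 ∧ 1 ≤ Real.log (Real.log ((Uz z : ℝ) * X)) ∧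
      Real.log (Real.log ((Uz z : ℝ) * X)) ≤ 2 * Real.log (Real.log X) := by
  obtain ⟨u1, u2, u3, u4⟩ := scaleE (Z := Uz z * X) hl hz hzL (Nat.le_mul_of_pos_left X (Uz_pos z)) le_rfl
  rw [Nat.cast_mul] at u1 u2 u3 u4
  have h0 : 0 < Real.log X := by
    by_contra h
    have h1 : Real.log X = 0 := le_antisymm (not_lt.1 h) (Real.log_natCast_nonneg X)
    rw [h1, Real.log_zero] at hl
    linarith
  have h2 : 2 ≤ Real.log X := by
    have := Real.add_one_le_exp (Real.log (Real.log X))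
    rw [Real.exp_log h0] at this
    linarith
  refine ⟨by linarith, ?_, by linarith, u4⟩
  have h3 : 2 * Real.log X ≤ Real.log X ^ 2 := by
    rw [sq]
    exact mul_le_mul_of_nonneg_right h2 h0.le
  linarith

lemma cond2 {U L l LY Y : ℝ} (hU0 : 0 ≤ U) (hU : U ≤ L ^ 2) (hL : L = Real.exp l) (hY : Y = Real.exp LY) (h : 128 * l ≤ LY) : U ^ 64 ≤ Y := by
  have h1 : U ^ 64 ≤ (L ^ 2) ^ 64 := pow_le_pow_left₀ hU0 hU 64
  have h2 : (L ^ 2) ^ 64 = Real.exp (128 * l) := by
    rw [← pow_mul, hL, ← Real.exp_nat_mul]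
    congr 1
  rw [h2] at h1
  rw [hY]
  exact h1.trans (Real.exp_le_exp.2 h)

lemma cond3 {Ch v l LY K θ : ℝ} (hCh : 1 ≤ Ch) (hv1 : 1 ≤ v) (hv2 : v ≤ 2 * l) (hl : 262144 * (2 + Ch) ≤ l) (hK : 0 ≤ K) (hθ : 0 ≤ θ) (hKY : (1 + θ) * (K * l) ≤ LY) :
    4 * K * Real.log (Ch * v) ≤ LY / 64 := by
  have hl0 : 0 < l := by linarith
  have h1 : Ch * v ≤ Ch * (2 * l) := mul_le_mul_of_nonneg_left hv2 (by linarith)
  have h2 : 0 < Ch * v := by positivity
  have h3 : Real.log (Ch * v) ≤ l / 256 := by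
    refine (Real.log_le_log h2 h1).trans ?_
    have h4 : (l / 256) ^ 2 / 2 ≤ Real.exp (l / 256) := by
      have := Real.quadratic_le_exp_of_nonneg (x := l / 256) (by positivity)
      have h0 : 0 ≤ l / 256 := by positivity
      linarith
    rw [Real.log_le_iff_le_exp (by positivity)]
    refine le_trans ?_ h4
    have h5 : 262144 * Ch ≤ l := by linarith
    have h6 : (262144 * Ch) * l ≤ l * l := mul_le_mul_of_nonneg_right h5 hl0.le
    have h7 : (l / 256) ^ 2 / 2 = l * l / 131072 := by ring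
    rw [h7]
    linarith
  have h4 : K * l ≤ LY := by
    have : 0 ≤ θ * (K * l) := by positivity
    linarith
  calc 4 * K * Real.log (Ch * v) ≤ 4 * K * (l / 256) := mul_le_mul_of_nonneg_left h3 (by positivity)
    _ = K * l / 64 := by ring
    _ ≤ _ := by linarith

end Pool.Agent.Q145.LY
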