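import Pool.Agent.Q145.LY.Stm

/-!
# Project LY: the average of the pair singular series in the true range (adapted from `Pool/Agent/Q145/LE/Hs.lean`)
-/

set_option autoImplicit false

namespace Pool.Agent.Q145.LY

open Finset Filter
open Pool.Agent.Q145.SZ Pool.Agent.Q145.LQ Pool.Agent.Q145.LE Pool.Agent.Q261.SZ Pool.Agent.Q53.LQ.JPOLY Pool.Agent.Q53.LQ.HSQ

open Classical in
/-- the conclusion of `S_HSQ` -/
def HSQy : Prop := ∀ d : ℕ, ∃ (C z₀ : ℕ), 1 ≤ C ∧ ∀ (z Y X K r : ℕ) (H : Fin K → ℕ) (q : Fin K → Polynomial ℤ), z₀ ≤ z → r ≤ 2 → 32 * K ≤ z → SysE d z Y X H q → Y ≤ X →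
  (PW z : ℝ) ^ 32 ≤ Y → Real.log ((Uz z : ℝ) * X) ^ 64 ≤ Y → 4 * (K : ℝ) * Real.log (C * Real.log (Real.log ((Uz z : ℝ) * X))) ≤ Real.log Y / 64 → ∀ c e : ZMod (PW z),
  ∑ n ∈ (Ioc Y (2 * Y)).filter (fun n : ℕ => (n : ZMod (PW z)) = c),
    ∑ m ∈ (Ioc Y (2 * Y)).filter (fun m : ℕ => (m : ZMod (PW z)) = e ∧ okp q n m), ∏ i, SP z (H i) (dst (vq (q i) n) (vq (q i) m)) ^ r ≤ ((Y : ℝ) / PW z) ^ 2 * (1 + C / Real.log z)

theorem hsqY (hJ : S_JG) : HSQy := by
  classical
  intro d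
  obtain ⟨C, z₁, hC1, hJ⟩ := hJ d
  have hev : ∀ᶠ z : ℕ in atTop, Real.exp ((z : ℝ) / 2) ≤ PW z ∧ 60 ≤ z ∧ 1 ≤ Real.log z ∧ z₁ ≤ z := by
    have h1 : Tendsto (fun z : ℕ => Real.log z) atTop atTop :=
      Real.tendsto_log_atTop.comp tendsto_natCast_atTop_atTop
    filter_upwards [PW_large, eventually_ge_atTop 60, h1.eventually_ge_atTop 1,
      eventually_ge_atTop z₁] with z a b c d
    exact ⟨a, b, c, d⟩
  obtain ⟨z₀, hz₀⟩ := hev.exists_forall_of_atTop
  refine ⟨4 * C, z₀, by omega, ?_⟩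
  intro z Y X K r H q hz hr hK hS hYX hY32 hYL hYK c e
  obtain ⟨hW, hz60, hlog1, hz1⟩ := hz₀ z hz
  have hz60r : (60 : ℝ) ≤ z := by exact_mod_cast hz60
  have hW0 : (0 : ℝ) < PW z := by exact_mod_cast Nat.pos_of_ne_zero (NeZero.ne (PW z))
  have hlog0 : 0 < Real.log z := by linarith
  rcases Nat.eq_zero_or_pos Y with hY0 | hY0
  · subst hY0
    simp
  have hX0 : 0 < X := by omega
  have hZ3 : 16 ≤ Uz z * X := le_trans (by have := le_Uz z; omega : 16 ≤ Uz z) (Nat.le_mul_of_pos_right (Uz z) hX0)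
  have hYZ : Y ≤ Uz z * X := hYX.trans (Nat.le_mul_of_pos_left X (Uz_pos z))
  have hLeq : Real.log ((Uz z : ℝ) * X) = Real.log ((Uz z * X : ℕ) : ℝ) := by push_cast; rfl
  set L := Real.log ((Uz z * X : ℕ) : ℝ) with hL
  rw [hLeq] at hYL hYK
  have hL1 : 1 ≤ L := by
    rw [hL, Real.le_log_iff_exp_le (by exact_mod_cast Nat.mul_pos (Uz_pos z) hX0)]
    have : (16 : ℝ) ≤ ((Uz z * X : ℕ) : ℝ) := by exact_mod_cast hZ3
    linarith [Real.exp_one_lt_d9]
  have hW1 : (1 : ℝ) ≤ PW z := by exact_mod_cast Nat.pos_of_ne_zero (NeZero.ne (PW z))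
  have hWY : (PW z : ℝ) ^ 2 ≤ Y := (pow_le_pow_right₀ hW1 (by norm_num)).trans hY32
  set T : ℝ := (Y : ℝ) / PW z with hT
  have hY0r : (0 : ℝ) < Y := by exact_mod_cast hY0
  have hT0 : 0 < T := by positivity
  -- the inner sum
  have hJM : ∀ R : Polynomial ℤ, R ≠ 0 → R.natDegree ≤ d → (∀ p : ℕ, p.Prime → z < p → ¬ (p : ℤ) ∣ R.leadingCoeff) →
      ∑ m ∈ (Ioc Y (2 * Y)).filter (fun m : ℕ => (m : ZMod (PW z)) = e ∧ R.eval (m : ℤ) ≠ 0 ∧
        (R.eval (m : ℤ)).natAbs ≤ Uz z * X), JP z (R.eval (m : ℤ)).natAbs ^ (2 * r * K) ≤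
        T * (1 + C / Real.log z) := by
    intro R hR hRd hRl
    have hM4 : 2 * r * K ≤ 4 * K := Nat.mul_le_mul_right K (by omega)
    refine hJ z Y (Uz z * X) (2 * r * K) R hz1 (by omega) hZ3 hY32 hYL ?_ hR hRd hRl e
    refine le_trans ?_ hYK
    rw [← hL]
    have h1 : ((2 * r * K : ℕ) : ℝ) ≤ 4 * K := by exact_mod_cast hM4
    have h2 : 0 ≤ Real.log L := Real.log_nonneg hL1
    have h3 : (C : ℝ) * Real.log L ≤ ((4 * C : ℕ) : ℝ) * Real.log L := by
      apply mul_le_mul_of_nonneg_right _ h2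
      push_cast
      have : (0 : ℝ) ≤ C := Nat.cast_nonneg _
      linarith
    have hC1' : (1 : ℝ) ≤ C := by exact_mod_cast hC1
    have h4 : 1 ≤ Real.log L := by
      have hL0 : 0 < L := by linarith
      rw [Real.le_log_iff_exp_le hL0]
      have h6 : Real.log 16 ≤ L := Real.log_le_log (by norm_num) (by exact_mod_cast hZ3)
      have h7 : Real.log 16 = 4 * Real.log 2 := by
        rw [show (16 : ℝ) = 2 ^ 4 by norm_num, Real.log_pow]
        norm_num
      linarith [Real.exp_one_lt_d9, Real.log_two_gt_d9]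
    have h5 : 1 ≤ (C : ℝ) * Real.log L := by nlinarith
    calc ((2 * r * K : ℕ) : ℝ) * Real.log (C * Real.log L) ≤ 4 * K * Real.log (C * Real.log L) := mul_le_mul_of_nonneg_right h1 (Real.log_nonneg h5)
      _ ≤ 4 * K * Real.log (((4 * C : ℕ) : ℝ) * Real.log L) := by
        apply mul_le_mul_of_nonneg_left _ (by positivity)
        exact Real.log_le_log (by linarith) h3
  have hinner : ∀ n ∈ Ioc Y (2 * Y),
      ∑ m ∈ (Ioc Y (2 * Y)).filter (fun m : ℕ => (m : ZMod (PW z)) = e ∧ okp q n m),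
        ∏ i, SP z (H i) (dst (vq (q i) n) (vq (q i) m)) ^ r ≤ T * (1 + C / Real.log z) := by
    intro n hn
    rcases Nat.eq_zero_or_pos K with hK0 | hK0
    · subst hK0
      have h1 := hJM 1 one_ne_zero (by simp) (fun p hp _ hd => hp.one_lt.ne' (by rw [Polynomial.leadingCoeff_one] at hd; exact_mod_cast Int.eq_one_of_dvd_one (by positivity) hd))
      refine le_trans ?_ h1
      simp only [univ_eq_empty, prod_empty, mul_zero, pow_zero, sum_const, nsmul_eq_mul, mul_one]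
      have h2 : ((Ioc Y (2 * Y)).filter (fun m : ℕ => (m : ZMod (PW z)) = e ∧ okp q n m)).card ≤
        ((Ioc Y (2 * Y)).filter (fun m : ℕ => (m : ZMod (PW z)) = e ∧ (1 : Polynomial ℤ).eval (m : ℤ) ≠ 0 ∧
        ((1 : Polynomial ℤ).eval (m : ℤ)).natAbs ≤ Uz z * X)).card := by
        refine card_le_card fun m hm => ?_
        rw [mem_filter] at hm ⊢
        refine ⟨hm.1, hm.2.1, by simp, ?_⟩
        rw [Polynomial.eval_one]
        simp
        omega
      exact_mod_cast h2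
    have hKne : K ≠ 0 := by omega
    have hd1 : 1 ≤ d := (hS.deg ⟨0, hK0⟩).1.trans (hS.deg ⟨0, hK0⟩).2
    choose R hR0 hRd hRl hRe using fun i => divdiff (q i) (hS.deg i).1 (n : ℤ)
    have hpos : ∀ i, ∀ k ∈ Ioc Y (2 * Y), 0 ≤ (q i).eval (k : ℤ) := by
      intro i k hk
      have := (hS.val i k hk).1
      have h2 : (0 : ℤ) ≤ H i := Int.natCast_nonneg _
      omega
    have hdst : ∀ i, ∀ m ∈ Ioc Y (2 * Y), dst (vq (q i) n) (vq (q i) m) =
        dst n m * ((R i).eval (m : ℤ)).natAbs := by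
      intro i m hm
      unfold vq
      rw [dst_toNat (hpos i n hn) (hpos i m hm), hRe, Int.natAbs_mul, dst_nat]
    -- the two kinds of sums
    have hX1 := hJM (Polynomial.X - Polynomial.C (n : ℤ)) (Polynomial.X_sub_C_ne_zero _)
      (by rw [Polynomial.natDegree_X_sub_C]; exact hd1)
      (fun p hp _ hd => hp.one_lt.ne' (by rw [Polynomial.leadingCoeff_X_sub_C] at hd; exact_mod_cast Int.eq_one_of_dvd_one (by positivity) hd))
    have hR1 := fun i => hJM (R i) (hR0 i) ((hRd i).trans (hS.deg i).2) (by rw [hRl i]; exact hS.lead i)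
    set F := (Ioc Y (2 * Y)).filter (fun m : ℕ => (m : ZMod (PW z)) = e ∧ okp q n m) with hF
    have hFX : F ⊆ (Ioc Y (2 * Y)).filter (fun m : ℕ => (m : ZMod (PW z)) = e ∧
        (Polynomial.X - Polynomial.C (n : ℤ)).eval (m : ℤ) ≠ 0 ∧
        ((Polynomial.X - Polynomial.C (n : ℤ)).eval (m : ℤ)).natAbs ≤ Uz z * X) := by
      intro m hm
      rw [hF, mem_filter] at hm
      rw [mem_filter]
      refine ⟨hm.1, hm.2.1, ?_, ?_⟩
      · rw [Polynomial.eval_sub, Polynomial.eval_X, Polynomial.eval_C]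
        have := hm.2.2.1
        omega
      · rw [Polynomial.eval_sub, Polynomial.eval_X, Polynomial.eval_C]
        rw [mem_Ioc] at hn hm
        omega
    have hFR : ∀ i, F ⊆ (Ioc Y (2 * Y)).filter (fun m : ℕ => (m : ZMod (PW z)) = e ∧
        (R i).eval (m : ℤ) ≠ 0 ∧ ((R i).eval (m : ℤ)).natAbs ≤ Uz z * X) := by
      intro i m hm
      rw [hF, mem_filter] at hm
      rw [mem_filter]
      have hne : dst (vq (q i) n) (vq (q i) m) ≠ 0 := by
        have := hm.2.2.2 i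
        unfold dst
        omega
      rw [hdst i m hm.1] at hne
      have hne2 := (Nat.mul_ne_zero_iff.1 hne)
      refine ⟨hm.1, hm.2.1, Int.natAbs_ne_zero.1 hne2.2, ?_⟩
      have h1 : ((R i).eval (m : ℤ)).natAbs ≤ dst (vq (q i) n) (vq (q i) m) := by
        rw [hdst i m hm.1]
        exact Nat.le_mul_of_pos_left _ (Nat.pos_of_ne_zero hne2.1)
      refine h1.trans (le_trans ?_ (hS.scale i).2)
      have a1 := hS.val i n hn
      have a2 := hS.val i m hm.1
      unfold vq dst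
      omega
    have hpt : ∀ m ∈ F, ∏ i, SP z (H i) (dst (vq (q i) n) (vq (q i) m)) ^ r ≤
        (1 / 2) * JP z ((Polynomial.X - Polynomial.C (n : ℤ)).eval (m : ℤ)).natAbs ^ (2 * r * K) +
        (1 / 2) * ((1 / (K : ℝ)) * ∑ i, JP z ((R i).eval (m : ℤ)).natAbs ^ (2 * r * K)) := by
      intro m hm
      have hm1 := hm
      rw [hF, mem_filter] at hm1
      have e1 : ((Polynomial.X - Polynomial.C (n : ℤ)).eval (m : ℤ)).natAbs = dst n m := by
        rw [Polynomial.eval_sub, Polynomial.eval_X, Polynomial.eval_C, dst_nat]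
      rw [e1]
      have h2 := point (z := z) (K := K) (r := r) (by omega) hKne (dst n m) ?_ H
        (fun i => ((R i).eval (m : ℤ)).natAbs) ?_
      · refine le_trans (le_of_eq ?_) h2
        exact prod_congr rfl fun i _ => by rw [hdst i m hm1.1]
      · have := hm1.2.2.1
        unfold dst
        omega
      · intro i
        have := hFR i hm
        rw [mem_filter] at this
        exact Int.natAbs_ne_zero.2 this.2.2.1
    refine (sum_le_sum hpt).trans ?_
    rw [sum_add_distrib, ← mul_sum, ← mul_sum, ← mul_sum, sum_comm]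
    have hnn : ∀ h : ℕ, 0 ≤ JP z h ^ (2 * r * K) := fun h => pow_nonneg (zero_le_one.trans (JP_one_le z h)) _
    have b1 := (sum_le_sum_of_subset_of_nonneg (f := fun m : ℕ =>
      JP z ((Polynomial.X - Polynomial.C (n : ℤ)).eval (m : ℤ)).natAbs ^ (2 * r * K)) hFX
      fun m _ _ => hnn _).trans hX1
    have b2 : ∀ i, ∑ m ∈ F, JP z ((R i).eval (m : ℤ)).natAbs ^ (2 * r * K) ≤ T * (1 + C / Real.log z) :=
      fun i => (sum_le_sum_of_subset_of_nonneg (hFR i) fun m _ _ => hnn _).trans (hR1 i)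
    have hKr : (0 : ℝ) < K := by exact_mod_cast hK0
    have b3 : (1 / (K : ℝ)) * ∑ i : Fin K, ∑ m ∈ F, JP z ((R i).eval (m : ℤ)).natAbs ^ (2 * r * K) ≤
        T * (1 + C / Real.log z) := by
      have : ∑ i : Fin K, ∑ m ∈ F, JP z ((R i).eval (m : ℤ)).natAbs ^ (2 * r * K) ≤
          K * (T * (1 + C / Real.log z)) := by
        refine (sum_le_card_nsmul _ _ _ fun i _ => b2 i).trans (le_of_eq ?_)
        rw [card_univ, Fintype.card_fin, nsmul_eq_mul]
      calc (1 / (K : ℝ)) * ∑ i : Fin K, ∑ m ∈ F, JP z ((R i).eval (m : ℤ)).natAbs ^ (2 * r * K) ≤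
          (1 / (K : ℝ)) * (K * (T * (1 + C / Real.log z))) := by gcongr
        _ = _ := by field_simp
    linarith
  -- the outer sum
  have hcard : (((Ioc Y (2 * Y)).filter (fun n : ℕ => (n : ZMod (PW z)) = c)).card : ℝ) ≤ T + 1 := by
    refine cnt_le Y (PW z) (Nat.pos_of_ne_zero (NeZero.ne (PW z))) _ (filter_subset _ _) fun a ha b hb => ?_
    rw [mem_filter] at ha hb
    rw [← ZMod.natCast_eq_natCast_iff, ha.2, hb.2]
  refine (sum_le_card_nsmul _ _ _ fun n hn => hinner n (mem_filter.1 hn).1).trans ?_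
  rw [nsmul_eq_mul]
  have hC0 : (0 : ℝ) ≤ C := Nat.cast_nonneg _
  have hB0 : 0 ≤ T * (1 + C / Real.log z) := by positivity
  refine (mul_le_mul_of_nonneg_right hcard hB0).trans ?_
  have h1 : Real.log z ≤ T := by
    have h2 : (PW z : ℝ) ≤ T := by
      rw [hT, le_div_iff₀ hW0]
      calc (PW z : ℝ) * PW z = (PW z : ℝ) ^ 2 := by ring
        _ ≤ Y := hWY
    have h3 : Real.log z ≤ PW z := by
      have h3 := Real.add_one_le_exp ((z : ℝ) / 2)
      have h4 : Real.log z ≤ (z : ℝ) / 2 + 1 := by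
        have h5 : Real.log z = Real.log (z / 2) + Real.log 2 := by
          rw [← Real.log_mul (by positivity) two_ne_zero]
          congr 1
          ring
        have h6 := Real.log_le_sub_one_of_pos (show (0 : ℝ) < z / 2 by linarith)
        have h7 := Real.log_two_lt_d9
        linarith
      linarith
    linarith
  set u : ℝ := 1 / Real.log z with hu
  have hu0 : 0 < u := by positivity
  have hu1 : u ≤ 1 := by
    rw [hu, div_le_one hlog0]
    exact hlog1
  have hTu : 1 ≤ T * u := by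
    rw [hu, mul_one_div, le_div_iff₀ hlog0, one_mul]
    exact h1
  have hC1r : (1 : ℝ) ≤ C := by exact_mod_cast hC1
  have hCu : (C : ℝ) / Real.log z = C * u := by rw [hu]; ring
  have hCu4 : ((4 * C : ℕ) : ℝ) / Real.log z = 4 * C * u := by rw [hu]; push_cast; ring
  rw [hCu, hCu4]
  calc (T + 1) * (T * (1 + C * u)) ≤ (T + T * u) * (T * (1 + C * u)) := by gcongr
    _ = T ^ 2 * (1 + (1 + C) * u + C * (u * u)) := by ring
    _ ≤ T ^ 2 * (1 + (1 + C) * u + C * (u * 1)) := by gcongr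
    _ ≤ T ^ 2 * (1 + 4 * C * u) := by
        refine mul_le_mul_of_nonneg_left ?_ (by positivity)
        have h9 : u ≤ C * u := le_mul_of_one_le_left hu0.le hC1r
        have h10 : 0 ≤ C * u := mul_nonneg hC0 hu0.le
        linarith


end Pool.Agent.Q145.LY
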