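import Pool.Agent.Q145.LX.Lo2
import Pool.Agent.Q145.LY.Av

/-!
# Project LY: below the threshold almost all systems have no prime point (adapted from `Pool/Agent/Q145/LX/Low.lean`, `Lo2.lean`)
-/

set_option autoImplicit false
set_option linter.all false

namespace Pool.Agent.Q145.LY

open Finset Filter
open Pool.Agent.Q145.SZ Pool.Agent.Q145.LQ Pool.Agent.Q145.LE Pool.Agent.Q145.LX

/-- the mean number of prime points, for constants in given classes -/
theorem mean_leY : ∃ (C : ℝ) (X₀ : ℕ), 0 < C ∧ ∀ (d z Y X K : ℕ) (H : Fin K → ℕ) (q : Fin K → Polynomial ℤ), X₀ ≤ X → 3 ≤ X → PW z ^ 2 ≤ X → 2 * PW z ≤ X → SysE d z Y X H q →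
    ∀ b : Fin K → ZMod (PW z), ∑ s ∈ SbQ H b, (cntQ Y q s : ℝ) ≤ (Y : ℝ) * (C * vv (PW z) / Real.log X) ^ K * (SbQ H b).card := by
  classical
  obtain ⟨C, X₀, hC, h⟩ := sum_bt
  refine ⟨C, X₀, hC, ?_⟩
  intro d z Y X K H q hX₀ hX3 hW2 h2W hS b
  have hXr : (3 : ℝ) ≤ X := by exact_mod_cast hX3
  have hL0 : 0 < Real.log X := Real.log_pos (by linarith)
  have hXH : ∀ i, X ≤ H i := fun i => (hS.scale i).1
  have hcnt : ∀ s : Fin K → ℕ, (cntQ Y q s : ℝ) = ∑ n ∈ Ioc Y (2 * Y), ∏ i, (if (vq (q i) n + s i).Prime then (1 : ℝ) else 0) := by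
    intro s
    unfold cntQ
    rw [card_eq_sum_ones, Nat.cast_sum, sum_filter]
    refine sum_congr rfl fun n _ => ?_
    rw [Finset.prod_ite_zero]
    simp
  have h1 : ∑ s ∈ SbQ H b, (cntQ Y q s : ℝ) = ∑ n ∈ Ioc Y (2 * Y), ∏ i, ∑ t ∈ cls (H i) (b i), (if (vq (q i) n + t).Prime then (1 : ℝ) else 0) := by
    rw [sum_congr rfl fun s _ => hcnt s, sum_comm]
    refine sum_congr rfl fun n _ => ?_
    unfold SbQ
    rw [Finset.prod_univ_sum]
  have h2 : ∀ n ∈ Ioc Y (2 * Y), ∀ i, ∑ t ∈ cls (H i) (b i), (if (vq (q i) n + t).Prime then (1 : ℝ) else 0) ≤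
      (C * vv (PW z) / Real.log X) * ((cls (H i) (b i)).card : ℝ) := by
    intro n hn i
    have h3 := h z (H i) (vq (q i) n) (hX₀.trans (hXH i)) (hW2.trans (hXH i)) (h2W.trans (hXH i)) (hS.mem i hn).1 (b i)
    have h4 : ∀ t ∈ cls (H i) (b i), Real.log X * (if (vq (q i) n + t).Prime then (1 : ℝ) else 0) ≤ wt (vq (q i) n + t) := by
      intro t _
      unfold wt
      split_ifs with hp
      · rw [mul_one]
        apply Real.log_le_log (by linarith)
        have h5 := (mem_Ioc.1 (hS.mem i hn).1).1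
        have h6 := hXH i
        have : X ≤ vq (q i) n + t := by omega
        exact_mod_cast this
      · simp
    have h5 := sum_le_sum h4
    rw [← mul_sum] at h5
    have h6 := h5.trans h3
    rw [div_mul_eq_mul_div, le_div_iff₀ hL0]
    calc _ = Real.log X * ∑ t ∈ cls (H i) (b i), (if (vq (q i) n + t).Prime then (1 : ℝ) else 0) := by ring
      _ ≤ _ := h6
      _ = _ := by ring
  rw [h1]
  have h7 : ∀ n ∈ Ioc Y (2 * Y), ∏ i, ∑ t ∈ cls (H i) (b i), (if (vq (q i) n + t).Prime then (1 : ℝ) else 0) ≤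
      (C * vv (PW z) / Real.log X) ^ K * (SbQ H b).card := by
    intro n hn
    refine (prod_le_prod (fun i _ => sum_nonneg fun t _ => by split_ifs <;> norm_num) fun i _ => h2 n hn i).trans (le_of_eq ?_)
    rw [prod_mul_distrib, prod_const, card_univ, Fintype.card_fin]
    unfold SbQ
    rw [Fintype.card_piFinset]
    push_cast
    rfl
  refine (sum_le_card_nsmul _ _ _ h7).trans (le_of_eq ?_)
  rw [nsmul_eq_mul, Nat.card_Ioc, two_mul, Nat.add_sub_cancel]
  ring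


open Classical in
/-- the core: below the threshold -/
theorem low_coreY {C : ℝ} {X₀ : ℕ} (hC : 0 < C) (hmean : ∀ (d z Y X K : ℕ) (H : Fin K → ℕ) (q : Fin K → Polynomial ℤ), X₀ ≤ X → 3 ≤ X → PW z ^ 2 ≤ X → 2 * PW z ≤ X → SysE d z Y X H q →
    ∀ b : Fin K → ZMod (PW z), ∑ s ∈ SbQ H b, (cntQ Y q s : ℝ) ≤ (Y : ℝ) * (C * vv (PW z) / Real.log X) ^ K * (SbQ H b).card)
    {Cv : ℝ} (hCv : 0 < Cv) (hvv : ∀ z : ℕ, 2 ≤ z → vv (PW z) ≤ Cv * Real.log z ∧ C18 (PW z) ≤ Cv * Real.log z ^ 18)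
    {θ ε : ℝ} (hθ : 0 < θ) (hε : 0 < ε) {d z Y X K : ℕ} {H : Fin K → ℕ} {q : Fin K → Polynomial ℤ} (hX₀ : X₀ ≤ X)
    (hL : 64 ≤ Real.log X) (hz2 : 2 ≤ z) (hzL : 64 * (z : ℝ) ≤ Real.log X) (hK1 : 1 ≤ K) (hKz : 64 * (d + 1) * (K + 1) ≤ z) (hY1 : 1 ≤ Y)
    (hl0 : 0 < Real.log (Real.log X))
    (hY : Real.log Y ≤ (1 - θ) * (K * Real.log (Real.log X)))
    (hl1 : C * (Cv * Real.log (Real.log X)) ≤ Real.exp (θ / 2 * Real.log (Real.log X)))
    (hl2 : Real.exp (-(θ / 2 * Real.log (Real.log X))) ≤ ε / 4)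
    (hS : SysE d z Y X H q) :
    (((ATQ H q).filter fun s => cntQ Y q s ≠ 0).card : ℝ) ≤ ε * (ATQ H q).card := by
  set L := Real.log X with hLdef
  set l := Real.log L with hldef
  have hL0 : 0 < L := by linarith
  have hX0 : (0 : ℝ) < X := by
    rcases Nat.eq_zero_or_pos X with h | h
    · rw [h] at hLdef
      simp at hLdef
      linarith
    · exact_mod_cast h
  have hXe : (X : ℝ) = Real.exp L := (Real.exp_log hX0).symm
  have hLe : L = Real.exp l := (Real.exp_log hL0).symm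
  have hXL : L + 1 ≤ X := by
    rw [hXe]
    exact Real.add_one_le_exp L
  have hX3 : 3 ≤ X := by
    have : (3 : ℝ) ≤ X := by linarith
    exact_mod_cast this
  have hz0 : (0 : ℝ) < z := by exact_mod_cast (show 0 < z by omega)
  have hWe : (PW z : ℝ) ≤ Real.exp (2 * z) := PW_le Pool.Agent.Q111.SZ.t_PWB z
  have hW0 : (0 : ℝ) < PW z := by exact_mod_cast PW_pos z
  have hW2X : PW z ^ 2 ≤ X := by
    have : (PW z : ℝ) ^ 2 ≤ X := by
      calc (PW z : ℝ) ^ 2 ≤ (Real.exp (2 * z)) ^ 2 := by gcongr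
        _ = Real.exp (4 * z) := by rw [← Real.exp_nat_mul]; ring_nf
        _ ≤ Real.exp L := Real.exp_le_exp.2 (by linarith)
        _ = X := hXe.symm
    exact_mod_cast this
  have hz1 : (1 : ℝ) ≤ z := by exact_mod_cast (show 1 ≤ z by omega)
  have hK0 : (0 : ℝ) ≤ K := Nat.cast_nonneg _
  have hd0 : (0 : ℝ) ≤ d := Nat.cast_nonneg _
  have hKr' : (64 : ℝ) * (d + 1) * (K + 1) ≤ z := by exact_mod_cast hKz
  have hKr : (64 : ℝ) * (K + 1) ≤ z := by nlinarith [mul_nonneg hd0 hK0]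
  have hdK : d * K + 1 ≤ z := by
    have : 64 * (d + 1) * (K + 1) = 64 * (d * K) + 64 * d + 64 * K + 64 := by ring
    omega
  have hKWz : 16 * ((K : ℝ) + 1) * PW z ≤ Real.exp (3 * z) := by
    have h1 : 16 * ((K : ℝ) + 1) ≤ Real.exp z := by
      have := Real.add_one_le_exp (z : ℝ)
      linarith
    calc 16 * ((K : ℝ) + 1) * PW z ≤ Real.exp z * Real.exp (2 * z) := by gcongr
      _ = Real.exp (3 * z) := by rw [← Real.exp_add]; ring_nf
  have h8X : 8 * (K + 1) * PW z ≤ X := by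
    have : 8 * ((K : ℝ) + 1) * PW z ≤ X := by
      have h1 : 8 * ((K : ℝ) + 1) * PW z ≤ 16 * ((K : ℝ) + 1) * PW z := by
        have : 0 ≤ ((K : ℝ) + 1) * PW z := by positivity
        nlinarith
      calc _ ≤ Real.exp (3 * z) := h1.trans hKWz
        _ ≤ Real.exp L := Real.exp_le_exp.2 (by linarith)
        _ = X := hXe.symm
    exact_mod_cast this
  have h2WX : 2 * PW z ≤ X := (Nat.mul_le_mul_right _ (by omega : 2 ≤ 8 * (K + 1))).trans h8X
  -- the mean
  have hvz : vv (PW z) ≤ Cv * l := by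
    refine (hvv z hz2).1.trans ?_
    apply mul_le_mul_of_nonneg_left _ hCv.le
    rw [hldef]
    exact Real.log_le_log hz0 (by linarith)
  have hvv0 := (vv_pos z).le
  have hY0 : (0 : ℝ) < Y := by exact_mod_cast hY1
  have hη : (Y : ℝ) * (C * vv (PW z) / L) ^ K ≤ ε / 4 := by
    have e1 : C * vv (PW z) / L ≤ Real.exp (θ / 2 * l) * Real.exp (-l) := by
      rw [div_le_iff₀ hL0]
      have : Real.exp (-l) * L = 1 := by
        rw [Real.exp_neg, hldef, Real.exp_log hL0, inv_mul_cancel₀ hL0.ne']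
      calc C * vv (PW z) ≤ C * (Cv * l) := by gcongr
        _ ≤ Real.exp (θ / 2 * l) := hl1
        _ = Real.exp (θ / 2 * l) * (Real.exp (-l) * L) := by rw [this, mul_one]
        _ = _ := by rw [mul_assoc]
    have e2 : (Y : ℝ) ≤ (Real.exp ((1 - θ) * l)) ^ K := by
      rw [← Real.exp_nat_mul, ← Real.exp_log hY0]
      apply Real.exp_le_exp.2
      refine hY.trans (le_of_eq ?_)
      ring
    have e3 : 0 ≤ C * vv (PW z) / L := by positivity
    calc (Y : ℝ) * (C * vv (PW z) / L) ^ K ≤ (Real.exp ((1 - θ) * l)) ^ K * (Real.exp (θ / 2 * l) * Real.exp (-l)) ^ K := by gcongr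
      _ = (Real.exp (-(θ / 2 * l))) ^ K := by
        rw [← mul_pow, ← Real.exp_add, ← Real.exp_add]
        congr 2
        ring
      _ ≤ (Real.exp (-(θ / 2 * l))) ^ 1 := by
        apply pow_le_pow_of_le_one (Real.exp_pos _).le _ hK1
        apply Real.exp_le_one_iff.2
        have : 0 ≤ θ / 2 * l := by positivity
        linarith
      _ = Real.exp (-(θ / 2 * l)) := pow_one _
      _ ≤ _ := hl2
  obtain ⟨E, hE⟩ : ∃ E : (Fin K → ℕ) → Prop, ∀ s, E s ↔ cntQ Y q s ≠ 0 := ⟨_, fun _ => Iff.rfl⟩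
  have hcl : ∀ b : Fin K → ZMod (PW z), (((SbQ H b).filter fun s => E s).card : ℝ) ≤ ε / 4 * (SbQ H b).card := by
    intro b
    have h1 : (((SbQ H b).filter fun s => E s).card : ℝ) ≤ ∑ s ∈ SbQ H b, (cntQ Y q s : ℝ) := by
      rw [card_eq_sum_ones, Nat.cast_sum, sum_filter]
      refine sum_le_sum fun s _ => ?_
      split_ifs with h
      · have : 1 ≤ cntQ Y q s := Nat.one_le_iff_ne_zero.2 ((hE s).1 h)
        exact_mod_cast this
      · exact Nat.cast_nonneg _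
    refine h1.trans ((hmean d z Y X K H q hX₀ hX3 hW2X h2WX hS b).trans ?_)
    exact mul_le_mul_of_nonneg_right hη (Nat.cast_nonneg _)
  have ht := transE (E := E) (η := ε / 4) hdK hS h8X (by
    calc _ ≤ ∑ _b ∈ AdQ (PW z) q, ε / 4 := by
          apply sum_le_sum
          intro b _
          exact div_le_of_le_mul₀ (Nat.cast_nonneg _) (by positivity) (hcl b)
      _ = ε / 4 * (AdQ (PW z) q).card := by rw [sum_const, nsmul_eq_mul]; ring)
  have e : (ATQ H q).filter (fun s => cntQ Y q s ≠ 0) = (ATQ H q).filter fun s => E s := filter_congr fun s _ => (hE s).symm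
  rw [e]
  refine ht.trans ?_
  have : (0 : ℝ) ≤ ((ATQ H q).card : ℝ) := Nat.cast_nonneg _
  nlinarith [mul_nonneg hε.le this]


open Classical in
/-- the result below the threshold, for all systems -/
def PZY (d : ℕ) (θ : ℝ) (X : ℕ) (ε : ℝ) : Prop := ∀ (z₂ Y K : ℕ) (H : Fin K → ℕ) (q : Fin K → Polynomial ℤ), 1 ≤ K → (K : ℝ) ≤ Real.log X / Real.log (Real.log X) → 1 ≤ Y →
  Real.log Y ≤ (1 - θ) * (K * Real.log (Real.log X)) → (z₂ : ℝ) ≤ 2 * (K + Real.log (Real.log X)) → SysE d z₂ Y X H q →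
  (((ATQ H q).filter fun s => cntQ Y q s ≠ 0).card : ℝ) ≤ ε * (ATQ H q).card

theorem lowY (d : ℕ) : ∀ θ ε : ℝ, 0 < θ → 0 < ε → ∀ᶠ X : ℕ in atTop, PZY d θ X ε := by
  classical
  intro θ ε hθ hε
  obtain ⟨C, X₀, hC, hmean⟩ := mean_leY
  obtain ⟨Cv, hCv, hvv⟩ := t_PWC
  have hT1 : Tendsto (fun X : ℕ => Real.log (X : ℝ)) atTop atTop := Real.tendsto_log_atTop.comp tendsto_natCast_atTop_atTop
  have hT2 : Tendsto (fun X : ℕ => Real.log (Real.log (X : ℝ))) atTop atTop := Real.tendsto_log_atTop.comp hT1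
  have hT3 : ∀ᶠ x : ℝ in atTop, C * (Cv * x) ≤ Real.exp (θ / 2 * x) := by
    have h1 := (isLittleO_pow_exp_pos_mul_atTop 1 (show 0 < θ / 2 by positivity)).def (show 0 < 1 / (C * Cv) by positivity)
    filter_upwards [h1, eventually_ge_atTop 0] with x hx hx0
    rw [Real.norm_eq_abs, Real.norm_eq_abs, abs_of_nonneg (Real.exp_pos _).le, pow_one, abs_of_nonneg hx0, one_div, inv_mul_eq_div, le_div_iff₀ (by positivity)] at hx
    linarith
  have hT4 : ∀ᶠ x : ℝ in atTop, Real.exp (-(θ / 2 * x)) ≤ ε / 4 := by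
    have h1 : Tendsto (fun x : ℝ => Real.exp (-(θ / 2 * x))) atTop (nhds 0) := by
      apply Real.tendsto_exp_neg_atTop_nhds_zero.comp
      exact tendsto_id.const_mul_atTop (by positivity)
    exact h1.eventually_le_const (by positivity)
  filter_upwards [hT2.eventually hT3, hT2.eventually hT4, hT2.eventually_ge_atTop (64 * 256 * (d + 1)), hT1.eventually_ge_atTop 64, eventually_ge_atTop X₀] with X e1 e2 e3 e4 e5
  intro z₂ Y K H q hK1 hKL hY1 hY hz₂ hS
  set L := Real.log (X : ℝ) with hL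
  set l := Real.log L with hl
  have hd0 : (0 : ℝ) ≤ d := Nat.cast_nonneg _
  have hK0 : (0 : ℝ) ≤ K := Nat.cast_nonneg _
  have hK1r : (1 : ℝ) ≤ K := by exact_mod_cast hK1
  have hl0 : 0 < l := by nlinarith
  have hl1 : 64 ≤ l := by nlinarith
  have hL0 : 0 < L := by linarith
  set z : ℕ := 64 * (d + 1) * (K + 1) + z₂ + 2 with hz
  have hzr : (z : ℝ) = 64 * (d + 1) * (K + 1) + z₂ + 2 := by rw [hz]; push_cast; ring
  have hlL : l * l ≤ 2 * L := by
    have h1 : L = Real.exp l := (Real.exp_log hL0).symm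
    have h2 := Real.quadratic_le_exp_of_nonneg hl0.le
    nlinarith
  have hzL : 64 * (z : ℝ) ≤ L := by
    rw [le_div_iff₀ hl0] at hKL
    rw [hzr]
    have h1 : 64 * 256 * (d + 1) * (K : ℝ) ≤ L := by
      calc 64 * 256 * (d + 1) * (K : ℝ) = K * (64 * 256 * (d + 1)) := by ring
        _ ≤ K * l := mul_le_mul_of_nonneg_left e3 hK0
        _ ≤ L := hKL
    have h2 : 64 * 256 * (1 : ℝ) ≤ l := by nlinarith
    have h3 : 64 * 256 * l ≤ l * l := by nlinarith
    have h4 : (d : ℝ) + 1 ≤ (d + 1) * K := by nlinarith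
    have h5 : (K : ℝ) ≤ (d + 1) * K := by nlinarith
    nlinarith
  exact low_coreY hC hmean hCv hvv hθ hε e5 (by linarith) (by omega) hzL hK1 (by omega) hY1 hl0 hY e1 e2 (hS.mono (by omega))

end Pool.Agent.Q145.LY
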