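import Pool.Agent.Q145.LX.Jx

/-!
# Project LY (helper145): statements. The moments of `JP` along a polynomial in the true range

`JP z h` is the product of `p / (p - 1)` over the primes `p > z` dividing `h`; `gj M p = (p / (p - 1)) ^ M - 1`. The three statements:

* `S_CB`: a combinatorial inequality (sets of primes with a large product contain a subset with a product of moderate size);
* `S_JT`: the trivial bound `JP z h ≤ C log log Z` for `0 < h ≤ Z`;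
* `S_JG`: the moments of `JP` along a polynomial; to be proved from the two other statements: `theorem jg (h1 : S_CB) (h2 : S_JT) : S_JG`.

The models are `Pool/Agent/Q145/LE/Hs.lean` (`main_sumE`, `jpolyE`: the same statement for much larger `Y`) and `Pool/Agent/Q145/LX/Jx.lean`
(`main_sumX`, `second_leX`, `jx`: the same statement for `R = X - n`).
-/

set_option autoImplicit false

namespace Pool.Agent.Q145.LY

open Finset Filter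
open Pool.Agent.Q145.SZ Pool.Agent.Q145.LQ Pool.Agent.Q145.LE Pool.Agent.Q261.SZ Pool.Agent.Q53.LQ.JPOLY Pool.Agent.Q53.LQ.HSQ

/-- **S_CB.** Proof. Write `e(E) = ∏ p ∈ E, p`, `G(E) = ∏ p ∈ E, g p ≥ 0`. Let `E ⊆ D`, `y ^ 4 < e(E)`. There is `E' ⊆ E` with `y ^ 2 < e(E') ≤ y ^ 3`: by induction on
`E` (if `E` is a set of numbers in `[1, y]` with `y ^ 2 < e(E)` then some `E' ⊆ E` has `y ^ 2 < e(E') ≤ y ^ 3`: if `e(E) ≤ y ^ 3` take `E' = E`; else remove any element `p` of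
`E`: `e(E \ p) ≥ e(E) / y > y ^ 2`, and use induction on the cardinality). As `G(E) = G(E') G(E \ E')` (`Finset.prod_sdiff`) and all terms are nonnegative,
`G(E) ≤ ∑ over E' ⊆ E with y ^ 2 < e(E') ≤ y ^ 3 of G(E') G(E \ E')`. Sum over `E ⊆ D` and exchange the sums: the left side is
`≤ ∑_{E' ⊆ D, y ^ 2 < e(E') ≤ y ^ 3} G(E') ∑_{E' ⊆ E ⊆ D} G(E \ E')`, and for fixed `E'` the map `E ↦ E \ E'` is injective on the sets containing `E'` with values subsets of `D`, so that the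
inner sum is `≤ ∑_{F ⊆ D} G(F) = ∏_{p ∈ D} (1 + g p)` (`Finset.prod_one_add`). -/
def S_CB : Prop := ∀ (y : ℕ) (D : Finset ℕ) (g : ℕ → ℝ), 1 ≤ y → (∀ p ∈ D, 1 ≤ p ∧ p ≤ y) → (∀ p ∈ D, 0 ≤ g p) →
  ∑ E ∈ D.powerset.filter (fun E => y ^ 4 < ∏ p ∈ E, p), ∏ p ∈ E, g p ≤
    (∑ E ∈ D.powerset.filter (fun E => y ^ 2 < ∏ p ∈ E, p ∧ ∏ p ∈ E, p ≤ y ^ 3), ∏ p ∈ E, g p) * ∏ p ∈ D, (1 + g p)

/-- **S_JT.** Proof. Put `L = log Z ≥ log 16 > 2.7`, `n = ⌈L⌉₊`, so `n ≤ L + 1 ≤ L ^ 2` and `log n ≤ 2 log L`. The primes `p ≤ n`: the product of `p / (p - 1)` over ALL primes `p ≤ n` is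
`vv (PW n) ≤ C log n` (statement `Pool.Agent.Q145.SZ.S_PWC` or similar, proved in `Pool/Agent/Q272/SZ/PWC.lean`; see how `hvv` is used in `Pool/Agent/Q145/LX/Va.lean`).
The primes `p > n` dividing `h`: there are at most `2 L` of them (`2 ^ (number of primes dividing h) ≤ h ≤ Z`), each factor is `≤ 1 + 1 / n ≤ 1 + 1 / L`, so the product is `≤ (1 + 1 / L) ^ (2 L) ≤ e ^ 2`. -/
def S_JT : Prop := ∃ C : ℝ, 1 ≤ C ∧ ∀ z h Z : ℕ, h ≠ 0 → h ≤ Z → 16 ≤ Z → JP z h ≤ C * Real.log (Real.log Z)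

/-- **S_JG**, the moments of `JP` along a polynomial in a class. Proof, from `S_CB` and `S_JT`. Let `g p = gj M p ≤ 4 M / p` (`gj_le`), `W = PW z`, `y` the largest natural number
with `y ^ 8 ≤ Y`, so that `2 y ≥ Y ^ (1/8) ≥ W ^ 4` and `2 y ≥ (log Z) ^ 8`. `P` the set of the primes in `(z, y]`, `e(E)`, `G(E)` as in `S_CB`, `h_m = |R(m)|`, `1 ≤ h_m ≤ Z`, `S` the set of the `m`.
By `JP_pow` (or its proof) `JP z h ^ M = ∏_{z < p ≤ Z} (1 + [p ∣ h] g p) = F(h) F'(h)`, `F` the product over `P`, `F'` the product over the primes in `(y, Z]`.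

(i) `h_m` has at most `2 log Z` prime divisors, so `F'(h_m) ≤ (1 + 4 M / y) ^ (2 log Z) ≤ exp (8 M log Z / y) ≤ 1 + 1 / log z` for large `z` (as `8 M ≤ z ≤ W`, `2 y ≥ W ^ 4`, `2 y ≥ (log Z) ^ 8`,
so `(2 y) ^ 2 ≥ W ^ 4 (log Z) ^ 8`).

(ii) `∑_m F(h_m) = ∑_m ∑_{E ⊆ P, e(E) ∣ h_m} G(E)`. The part with `e(E) ≤ y ^ 4`: for each `E` the number of `m ∈ S` with `e(E) ∣ h_m` is
`≤ d ^ |E| (Y / (W e(E)) + 1)` (`cnt_roots`, exactly as in `main_sumE`) and `1 ≤ y ^ 2 / √e(E)`; so this part is `≤ (Y / W) S₁ + y ^ 2 S₂`, `S₁ = ∏_{p ∈ P} (1 + d g p / p)`,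
`S₂ = ∏_{p ∈ P} (1 + d g p / √p)`. By `first_le` (with `Z` replaced by `y`) `S₁ ≤ exp (d C₁ / log z) ≤ 1 + 2 d C₁ / log z`; as in `second_leX` `S₂ ≤ exp (d C₁ √z) ≤ exp (z / 4) ≤ W` for large `z`.

(iii) The part with `e(E) > y ^ 4`: by `S_CB` with `D` the set of the `p ∈ P` dividing `h_m` it is at most the sum over `m` of `F(h_m) ∑_{E ⊆ P, y ^ 2 < e(E) ≤ y ^ 3, e(E) ∣ h_m} G(E)`;
`F(h_m) ≤ JP z h_m ^ M ≤ (C log log Z) ^ M ≤ Y ^ (1/64)` by `S_JT`, and the number of `m` is again `≤ d ^ |E| (Y / (W e(E)) + 1) ≤ d ^ |E| 2 Y / e(E) ≤ d ^ |E| (2 Y / y) / √e(E)`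
(`e(E) ≤ y ^ 3 ≤ Y` and `√e(E) ≥ y`). So this part is `≤ Y ^ (1/64) (2 Y / y) S₂ ≤ Y ^ (1/64) (2 Y / y) W`, and as `2 y ≥ Y ^ (1/8)`, `Y ≥ W ^ 32` this is `≤ (Y / W) / log z` for large `z`.

Together: `∑ ≤ (1 + 1 / log z) ((Y / W) (1 + 2 d C₁ / log z) + y ^ 2 W + (Y / W) / log z) ≤ (Y / W) (1 + C / log z)`. -/
def S_JG : Prop := ∀ d : ℕ, ∃ (C z₀ : ℕ), 1 ≤ C ∧ ∀ (z Y Z M : ℕ) (R : Polynomial ℤ), z₀ ≤ z → 8 * M ≤ z → 16 ≤ Z → (PW z : ℝ) ^ 32 ≤ Y →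
  Real.log Z ^ 64 ≤ Y → (M : ℝ) * Real.log (C * Real.log (Real.log Z)) ≤ Real.log Y / 64 →
  R ≠ 0 → R.natDegree ≤ d → (∀ p : ℕ, p.Prime → z < p → ¬ (p : ℤ) ∣ R.leadingCoeff) → ∀ c : ZMod (PW z),
  ∑ m ∈ (Ioc Y (2 * Y)).filter (fun m : ℕ => (m : ZMod (PW z)) = c ∧ R.eval (m : ℤ) ≠ 0 ∧
    (R.eval (m : ℤ)).natAbs ≤ Z), JP z (R.eval (m : ℤ)).natAbs ^ M ≤
      ((Y : ℝ) / PW z) * (1 + C / Real.log z)

end Pool.Agent.Q145.LY
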