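import Pool.Agent.Q145.LY.Av
import Pool.Agent.Q145.LY.Lo
import Pool.Agent.Q145.LE.All
import Pool.Agent.Q145.LX.Su

/-!
# Project LY: assembly (adapted from `Pool/Agent/Q145/LX/Su.lean`)
-/

set_option autoImplicit false
set_option linter.all false

namespace Pool.Agent.Q145.LY

open Finset Filter
open Pool.Agent.Q145.SZ Pool.Agent.Q145.LQ Pool.Agent.Q145.LE Pool.Agent.Q145.LX
open Pool.Agent.Q145.LS (SUFP SUFc case1 case2 dich)

open Classical in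
/-- the result above the threshold -/
def PYD (d : ℕ) (θ C : ℝ) (X Q : ℕ) (ε : ℝ) : Prop := ∀ (Y K R w : ℕ) (H T : Fin K → ℕ) (G : Fin K → Polynomial ℤ),
  ((1 + θ) * K + C) * Real.log (Real.log X) + C * R ≤ Real.log Y → Y ≤ X → 4 * (d + 1) * (K + 1) ≤ Q → R ≤ Q →
  SysY d R Y X H T G → Real.log X ≤ w → (w : ℝ) ^ 20 ≤ X →
  ((((Fintype.piFinset fun i => Icc 1 (T i)).filter fun t => ¬ HLQ Y H (qt G t) (fun s => singPQ (qt G t) s w) ε).card : ℕ) : ℝ) ≤ ε * ∏ i, (T i : ℝ)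

open Classical in
theorem sufY (hjg : S_JG) (d : ℕ) (hd : 1 ≤ d) {θ : ℝ} (hθ0 : 0 < θ) (hθ1 : θ ≤ 1) : ∃ C : ℝ, 0 < C ∧ SUFP (PYD d θ C) := by
  obtain ⟨a₀, vbA⟩ := vby hjg d
  have vb := vbA θ hθ0 hθ1
  obtain ⟨B, C₀, hB, hC₀, hin⟩ := inputsE anE Pool.Agent.Q53.LQ.H2U.main (2 * (a₀ + 11)) (4 * a₀ + 44) (by omega)
  have hκr : 64 ≤ 64 / θ := by
    rw [le_div_iff₀ hθ0]
    linarith
  have hκ0 : 0 < 64 / θ := by positivity
  refine ⟨64 / θ * (C₀ + 2) + 2, by positivity, B, C₀ + 1, hB, by linarith, fun ε hε => ?_⟩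
  obtain ⟨M₁, hM₁, hexq⟩ := exq_y t_PRT t_TAU a₀ ε hε
  obtain ⟨M₂, hM₂, hnear⟩ := near_truncY (min ε 1 / 16) (ε / 8) (by positivity) (by positivity)
  obtain ⟨M₃, hM₃, hh⟩ := hls_boundY hθ0 hθ1 vb t_MBQ Pool.Agent.Q111.SZ.t_PWB ε hε
  have hd0 : (0 : ℝ) ≤ d := Nat.cast_nonneg _
  refine ⟨M₁ + M₂ + M₃ + C₀ + 1 + 64 * (64 / θ) * (d + 1), by linarith [show 0 ≤ 64 * (64 / θ) * ((d : ℝ) + 1) by positivity], ?_⟩
  intro z₁ X ω T hl hz₁ hzL₁ hω hω4 hωL hT hTz₁ hTL hZF₁ Q hQ₁ Y K R w H Tt G hYl hYX hKQ hRQ hSys hw1 hw2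
  have hdd : 0 ≤ 64 * (64 / θ) * ((d : ℝ) + 1) := by positivity
  set l := Real.log (Real.log X) with hldef
  have hl0 : 0 < l := by linarith
  have hl1 : 1 ≤ l := by linarith
  -- the smaller sieve level
  set z : ℕ := max (64 * (d + 1) * (K + 1)) (max R ⌈C₀ * l⌉₊) with hzdef
  have hzz : z ≤ z₁ := by
    apply max_le (by
      have : 64 * (d + 1) * (K + 1) = 16 * (4 * (d + 1) * (K + 1)) := by ring
      omega)
    apply max_le (by omega)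
    apply Nat.ceil_le.2
    refine le_trans ?_ hz₁
    nlinarith
  have hRz : R ≤ z := (le_max_left _ _).trans (le_max_right _ _)
  have hz : C₀ * l ≤ z := (Nat.le_ceil _).trans (by exact_mod_cast (le_max_right _ _).trans (le_max_right _ _))
  have hK64 : 64 * (d + 1) * (K + 1) ≤ z := le_max_left _ _
  have hR0 : (0 : ℝ) ≤ R := Nat.cast_nonneg _
  have hzub : (z : ℝ) ≤ 64 * (d + 1) * (K + 1) + R + C₀ * l + 1 := by
    have h1 : (⌈C₀ * l⌉₊ : ℝ) ≤ C₀ * l + 1 := (Nat.ceil_lt_add_one (by positivity)).le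
    have h2 : (z : ℝ) = max ((64 * (d + 1) * (K + 1) : ℕ) : ℝ) (max (R : ℝ) (⌈C₀ * l⌉₊ : ℝ)) := by
      rw [hzdef]
      push_cast
      rfl
    have h3 : 0 ≤ (64 * ((d : ℝ) + 1) * (K + 1)) := by positivity
    have h4 : 0 ≤ C₀ * l := by positivity
    rw [h2]
    apply max_le
    · push_cast
      linarith
    · apply max_le <;> linarith
  have hzzr : (z : ℝ) ≤ z₁ := by exact_mod_cast hzz
  have hz0 : (0 : ℝ) ≤ z := by positivity
  have hlog0 : 0 ≤ Real.log X := Real.log_natCast_nonneg X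
  have hC₀0 : 0 ≤ C₀ := by linarith
  have hz₁0 : (0 : ℝ) ≤ z₁ := by positivity
  have hC₀l : 0 ≤ C₀ * l := by positivity
  have hzl0 : 0 ≤ (z₁ : ℝ) * l := by positivity
  have hS : SysY d z Y X H Tt G := hSys.mono hRz
  have c2 : C₀ * z * l ≤ Real.log X := by
    have h1 : C₀ * z * l ≤ C₀ * z₁ * l := by gcongr
    nlinarith
  have c3 : C₀ * l ≤ ω * Real.log X := by nlinarith
  have c4 : 7 * √(Real.log X) ≤ Real.log T := by
    refine le_trans ?_ hTL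
    have := Real.sqrt_nonneg (Real.log X)
    linarith
  have hTz : 120 * B * z ≤ Real.log T := by
    refine le_trans ?_ hTz₁
    gcongr
  have hZF : ZF (PW z ^ B) ω T := ZF_mono (Nat.pow_le_pow_left (PW_mono hzz) B) hZF₁
  have c5 : 64 * l ≤ z := by
    have : (64 : ℝ) * l ≤ C₀ * l := by gcongr
    linarith
  have hKr : 0 ≤ (K : ℝ) := Nat.cast_nonneg _
  have c6 : 64 / θ * z ≤ Real.log Y := by
    refine le_trans ?_ hYl
    have h1 : 64 * (64 / θ) * ((d : ℝ) + 1) ≤ l := by linarith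
    have h3 : 64 / θ * z ≤ 64 / θ * (64 * (d + 1) * (K + 1) + R + C₀ * l + 1) := mul_le_mul_of_nonneg_left hzub hκ0.le
    have h4 : 64 / θ * (64 * ((d : ℝ) + 1) * ((K : ℝ) + 1)) ≤ l * (K + 1) := by
      calc 64 / θ * (64 * ((d : ℝ) + 1) * ((K : ℝ) + 1)) = (64 * (64 / θ) * ((d : ℝ) + 1)) * (K + 1) := by ring
        _ ≤ _ := by gcongr
    have h5 : 64 / θ * 1 ≤ 64 / θ * l := mul_le_mul_of_nonneg_left hl1 hκ0.le
    have h6 : 0 ≤ θ * K * l := by positivity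
    have e1 : 64 / θ * (64 * ((d : ℝ) + 1) * ((K : ℝ) + 1) + R + C₀ * l + 1) = 64 / θ * (64 * ((d : ℝ) + 1) * ((K : ℝ) + 1)) + 64 / θ * R + 64 / θ * (C₀ * l) + 64 / θ * 1 := by ring
    have e2 : ((1 + θ) * K + (64 / θ * (C₀ + 2) + 2)) * l + (64 / θ * (C₀ + 2) + 2) * R =
        K * l + θ * K * l + 64 / θ * (C₀ * l) + 2 * (64 / θ * l) + 2 * l + (64 / θ * R + (64 / θ * (C₀ + 1) + 2) * R) := by ring
    have e3 : l * ((K : ℝ) + 1) = K * l + l := by ring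
    have h7 : 0 ≤ 64 / θ * l := by positivity
    have h8 : 0 ≤ (64 / θ * (C₀ + 1) + 2) * R := by positivity
    rw [e2]
    rw [e1] at h3
    linarith
  have c8 : (1 + θ) * (K * l) ≤ Real.log Y := by
    refine le_trans ?_ hYl
    have h6 : 0 ≤ (64 / θ * (C₀ + 2) + 2) * l := by positivity
    have h7 : 0 ≤ (64 / θ * (C₀ + 2) + 2) * R := by positivity
    have e2 : ((1 + θ) * K + (64 / θ * (C₀ + 2) + 2)) * l + (64 / θ * (C₀ + 2) + 2) * R =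
      (1 + θ) * (K * l) + (64 / θ * (C₀ + 2) + 2) * l + (64 / θ * (C₀ + 2) + 2) * R := by ring
    linarith
  have c7 : 64 * (z : ℝ) ≤ Real.log Y := by
    have h1 : (64 : ℝ) * z ≤ 64 / θ * z := by gcongr
    linarith
  have c9 : 64 * z * l ≤ Real.log X := by
    have h1 : (64 : ℝ) * z * l ≤ C₀ * z * l := by gcongr
    linarith
  have hK8 : 8 * d * (K + 1) ≤ z := le_trans (Nat.mul_le_mul_right _ (by omega)) hK64
  have hKz : K ≤ z := by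
    have : K + 1 ≤ 64 * (d + 1) * (K + 1) := Nat.le_mul_of_pos_left _ (by omega)
    omega
  rcases (Fintype.piFinset fun i => Icc 1 (Tt i)).eq_empty_or_nonempty with hem | hne
  · rw [hem, filter_empty, card_empty, Nat.cast_zero]
    exact mul_nonneg hε.le (prod_nonneg fun i _ => Nat.cast_nonneg _)
  obtain ⟨t₁, ht₁⟩ := hne
  have hsc : ∀ i, X ≤ H i ∧ H i ≤ Uz z * X := fun i => (hS.sys t₁ ht₁).scale i
  have hIN : ∀ i, INQ (2 * (a₀ + 11)) (4 * a₀ + 44) z (H i) := fun i =>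
    hin z X ω T (by linarith) hz c2 hω hω4 c3 hT hTz c4 hZF (H i) (hsc i).1 (hsc i).2
  choose h1 D hD hDc h2 using hIN
  have hex := hexq d z Y X K H Tt G D (by linarith) c5 c9 c7 hYX hKz hS (fun i => ⟨hD i, hDc i⟩)
  refine le_trans ?_ hex
  have hzw : z ≤ w := by
    have h3 : (z : ℝ) ≤ w := by
      refine le_trans ?_ hw1
      have h5 : (z : ℝ) * 1 ≤ z * l := mul_le_mul_of_nonneg_left hl1 hz0
      linarith
    exact_mod_cast h3
  have hsub : ((Fintype.piFinset fun i => Icc 1 (Tt i)).filter fun t => ¬ HLQ Y H (qt G t) (fun s => singPQ (qt G t) s w) ε) ⊆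
      ((Fintype.piFinset fun i => Icc 1 (Tt i)).filter fun t => ¬ (((exq Y (qt G t) D).card : ℝ) ≤ (Y : ℝ) ^ 2 / (PW z : ℝ) ^ (2 * (a₀ + 8)))) := by
    intro t htt
    rw [mem_filter] at htt ⊢
    refine ⟨htt.1, fun hcon => htt.2 ?_⟩
    have hSt := hS.sys t htt.1
    exact hh z Y X K H (qt G t) D (by linarith) c5 c9 c6 c8 hYX hK64 hSt (fun i => ⟨h1 i, h2 i⟩) hcon _
      (hnear d z w Y X K H (qt G t) (by linarith) c5 c9 c7 hYX hd hK8 hSt hzw hw2)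
  exact_mod_cast card_le_card hsub

/-- all three parts with one constant `C` -/
theorem mainY (hjg : S_JG) (d : ℕ) (hd : 1 ≤ d) {θ : ℝ} (hθ0 : 0 < θ) (hθ1 : θ ≤ 1) : ∃ C₁ : ℝ, 0 < C₁ ∧
    (∀ A ε : ℝ, 0 < ε → ∀ᶠ X : ℕ in atTop, ∀ Q : ℕ, (Q : ℝ) ≤ A * Real.log (Real.log X) → PYD d θ C₁ X Q ε) ∧
    (∃ c : ℝ, 0 < c ∧ ∀ ε : ℝ, 0 < ε → ∃ᶠ X : ℕ in atTop, ∀ Q : ℕ, (Q : ℝ) ≤ c * (Real.log X / Real.log (Real.log X)) → PYD d θ C₁ X Q ε) ∧
    (∃ c C : ℝ, 0 < c ∧ 0 < C ∧ ∀ ε : ℝ, 0 < ε → ∀ᶠ X : ℕ in atTop,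
      (∀ (r : ℕ) [NeZero r], 1 < r → (r : ℝ) ≤ Real.exp (Real.log X / Real.log (Real.log X)) → ∀ χ : DirichletCharacter ℂ r, χ.IsPrimitive → χ ^ 2 = 1 →
        ∀ β : ℝ, χ.LFunction β = 0 → β ≤ 1 - C * (Real.log (Real.log X) / Real.log X)) →
      ∀ Q : ℕ, (Q : ℝ) ≤ c * (Real.log X / Real.log (Real.log X)) → PYD d θ C₁ X Q ε) := by
  obtain ⟨C₁, hC₁, h⟩ := sufY hjg d hd hθ0 hθ1
  exact ⟨C₁, hC₁, fun A ε hε => case1 zr' Pool.Agent.Q111.SZ.t_PWB Pool.Agent.Q177.SZ.t_SIEG h A ε hε,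
    case2 Pool.Agent.Q111.SZ.t_PWB h good', dich zr' Pool.Agent.Q111.SZ.t_PWB h⟩

end Pool.Agent.Q145.LY
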